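import Pool.Agent.P.MP_6a2a35_pr.Main

/-!
`p_c(M) → p_c(∞)` when the `B` particles do not coalesce (`N < 1`) or do not move (`λ_B = 0`).
-/

namespace Pool.Agent.Results.MP_6a2a35_pr.Limit

open MeasureTheory Filter Topology Pool.Agent.P.MP_6a2a35_pr
open scoped ENNReal NNReal

/-- Sanity check: the infinite system is well defined, `sizeAt` stabilises at `S` almost surely. -/
theorem wellposed {V : Type*} [MeasurableSpace V] [Countable V] [DiscreteMeasurableSpace V]
    {G : SimpleGraph V} {K : V → PMF V} {Γ : Subgroup (Equiv.Perm V)} (h : Setting G K Γ)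
    (c : Par) : ∀ᵐ ω ∂law K, ∀ x, ∀ᶠ T in atTop, ∀ᶠ W in atTop, sizeAt c ω x W T = S c ω x :=
  (ae_good1 h c).mono fun _ hω => hω.wellposed

/-- Sanity check: both conditioning events have positive probability. -/
theorem conditioning {V : Type*} [MeasurableSpace V] [Countable V] [DiscreteMeasurableSpace V]
    {G : SimpleGraph V} {K : V → PMF V} {Γ : Subgroup (Equiv.Perm V)} (h : Setting G K Γ)
    (c : Par) (hp : c.p ∈ Set.Ioo (0 : ℝ) 1) (hA : 0 < c.lamA) (o : V) (b : Bool) :
    law K {ω | isA c ω o = b ∧ 0 < S c ω o} ≠ 0 :=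
  ne_of_eq_of_ne (measure_congr (dies_ae h c o b)) (dies_pos h hp hA o b)

theorem result {V : Type*} [MeasurableSpace V] [Countable V] [DiscreteMeasurableSpace V]
    (G : SimpleGraph V) (K : V → PMF V) (Γ : Subgroup (Equiv.Perm V)) (h : Setting G K Γ) (o : V)
    (lamA lamB : ℝ≥0) (hA : 0 < lamA) (N : ℝ≥0∞) (hN : N < 1 ∨ lamB = 0) :
    Tendsto (fun M : ℝ≥0 => pc K o lamA lamB M N) atTop (𝓝 (pc K o lamA lamB ⊤ N)) :=
  pc_tendsto h hA hN o

end Pool.Agent.Results.MP_6a2a35_pr.Limit
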