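import Pool.Agent.P.MP_6a2a35_pr.Main

/-! `liminf p_c(M) ≥ p_c(∞)` for every finite cap `N`. -/

namespace Pool.Agent.Results.MP_6a2a35_pr.LowerBound

open MeasureTheory Filter Topology Pool.Agent.P.MP_6a2a35_pr
open scoped ENNReal NNReal

theorem result {V : Type*} [MeasurableSpace V] [Countable V] [DiscreteMeasurableSpace V]
    (G : SimpleGraph V) (K : V → PMF V) (Γ : Subgroup (Equiv.Perm V)) (h : Setting G K Γ) (o : V)
    (lamA lamB : ℝ≥0) (hA : 0 < lamA) (N : ℝ≥0∞) (hN : N < ⊤) (ε : ℝ) (hε : 0 < ε) :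
    ∀ᶠ M : ℝ≥0 in atTop, pc K o lamA lamB ⊤ N - ε < pc K o lamA lamB M N :=
  pc_lower h hA lamB hN.ne o (sub_lt_self _ hε)

end Pool.Agent.Results.MP_6a2a35_pr.LowerBound
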